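import Pool.Agent.PFE.StmtsS

/-!
# Squad PFE, ABQ: from a split Brauer quotient to the quotient map of the centraliser
-/

open scoped BigOperators TensorProduct

noncomputable section

namespace Pool.Agent.PFE.H72

open Pool.Agent.PFC Pool.Agent.PFE Pool.Agent.PFE.S
open Pool.Agent.PFC.B5a (QA be zin)

theorem cj_apply {F V A : Type} [Field F] [CommGroup V] [Ring A] [Algebra F A] (α : V →* A)
    (v : V) (a : A) : cj F α v a = α v * (a * α v⁻¹) := rfl

theorem mem_fx {F V A : Type} [Field F] [CommGroup V] [Ring A] [Algebra F A] (α : V →* A)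
    (Q : Subgroup V) (a : A) : a ∈ Fx (cj F α) Q ↔ a ∈ Cz F α Q := by
  rw [Cz, Subalgebra.mem_centralizer_iff]
  constructor
  · intro h
    rintro _ ⟨v, hv, rfl⟩
    have h1 : α v * (a * α v⁻¹) = a := h v hv
    calc α v * a = α v * (a * (α v⁻¹ * α v)) := by
          rw [← map_mul, inv_mul_cancel, map_one, mul_one]
      _ = α v * (a * α v⁻¹) * α v := by
          simp only [mul_assoc]
      _ = a * α v := by rw [h1]
  · intro h v hv
    have h1 := h (α v) ⟨v, hv, rfl⟩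
    show α v * (a * α v⁻¹) = a
    rw [← mul_assoc, h1, mul_assoc, ← map_mul, mul_inv_cancel, map_one, mul_one]

/-- ABQ -/
theorem abq : AbqStmt := by
  intro qke ℓ _ F V _ _ _ _ Y B Q β s hV hb
  obtain ⟨h1, h2, -⟩ := qke ℓ F V Y.A B.A (cj F Y.ι) (cj F B.ι) Q β s hV hb.toBrS
  have hf : ∀ a : Cz F Y.ι Q, (a : Y.A) ∈ Fx (cj F Y.ι) Q := fun a => (mem_fx Y.ι Q a).2 a.2
  have hone : β 1 = 1 := by
    have h3 := hb.cov 1
    have e1 : Y.ι 1 = 1 := map_one Y.ι
    have e2 : B.ι 1 = 1 := map_one B.ι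
    rw [e1, e2] at h3
    exact h3
  let q : Cz F Y.ι Q →ₐ[F] B.A := AlgHom.ofLinearMap (β ∘ₗ (Cz F Y.ι Q).val.toLinearMap) hone
    (fun a b => hb.mul _ (hf a) _ (hf b))
  have hq : ∀ a, q a = β a := fun _ => rfl
  refine ⟨q, ⟨?_, ?_⟩, hq, ?_⟩
  · intro b
    refine ⟨⟨s b, (mem_fx Y.ι Q (s b)).1 (h1 b)⟩, ?_⟩
    rw [hq]
    exact hb.bs b
  · intro a
    rw [hq]
    exact h2 a (hf a)
  · ext v
    show q (zin F Y.ι Q v) = B.ι v
    rw [hq]
    exact hb.cov v

end Pool.Agent.PFE.H72
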